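import Mathlib

/-!
# MDS array codes and linear repair

Definitions: MDS array codes given by parity-check blocks, repair bandwidth and repair I/O.
-/

namespace Q220.MDSArray

open Matrix

/-- The blocks `H_1, ..., H_n` of a parity check matrix of size `r l` by `n l`. -/
abbrev Blocks (K : Type) (n r l : ℕ) := Fin n → Matrix (Fin (r * l)) (Fin l) K

section Defs

variable {K : Type} [Field K] {n r l : ℕ}

/-- The MDS condition: any `r` of the blocks form an invertible square matrix, that is, the map
`(C_s)_s ↦ ∑ s, H_{I s} C_s` is a bijection from `(K^l)^r` onto `K^{r l}`. -/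
def IsMDS (H : Blocks K n r l) : Prop :=
  ∀ I : Fin r ↪ Fin n,
    Function.Bijective (fun C : Fin r → Fin l → K => ∑ s, H (I s) *ᵥ C s)

/-- `M` is a repair matrix for node `i`. -/
def IsRepair (H : Blocks K n r l) (i : Fin n) (M : Matrix (Fin l) (Fin (r * l)) K) : Prop :=
  IsUnit (M * H i)

/-- The repair bandwidth of `M`: the sum of the ranks of the `M H_j`, `j ≠ i`. -/
noncomputable def BW (H : Blocks K n r l) (i : Fin n) (M : Matrix (Fin l) (Fin (r * l)) K) : ℕ :=
  ∑ j ∈ Finset.univ.erase i, (M * H j).rank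

/-- The number of nonzero columns of a matrix. -/
noncomputable def nz {a b : ℕ} (A : Matrix (Fin a) (Fin b) K) : ℕ :=
  Set.ncard {c : Fin b | ∃ k, A k c ≠ 0}

/-- The repair I/O of `M`: the sum of the numbers of nonzero columns of the `M H_j`, `j ≠ i`. -/
noncomputable def IO (H : Blocks K n r l) (i : Fin n) (M : Matrix (Fin l) (Fin (r * l)) K) : ℕ :=
  ∑ j ∈ Finset.univ.erase i, nz (M * H j)

/-- `β_i`: the least repair bandwidth of node `i`. -/
noncomputable def beta (H : Blocks K n r l) (i : Fin n) : ℕ :=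
  sInf {b | ∃ M, IsRepair H i M ∧ BW H i M = b}

/-- `γ_i`: the least repair I/O of node `i`. -/
noncomputable def gamma (H : Blocks K n r l) (i : Fin n) : ℕ :=
  sInf {b | ∃ M, IsRepair H i M ∧ IO H i M = b}

/-- The mean of the `β_i`. -/
noncomputable def betaAvg (H : Blocks K n r l) : ℚ := (∑ i, (beta H i : ℚ)) / n

/-- The maximum of the `β_i`. -/
noncomputable def betaMax (H : Blocks K n r l) : ℕ := Finset.univ.sup (beta H)

/-- The mean of the `γ_i`. -/
noncomputable def gammaAvg (H : Blocks K n r l) : ℚ := (∑ i, (gamma H i : ℚ)) / n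

/-- The maximum of the `γ_i`. -/
noncomputable def gammaMax (H : Blocks K n r l) : ℕ := Finset.univ.sup (gamma H)

end Defs

/-- The lower bound `B(n, r, l, q) = l (n - 1) - (r - 1) (q^l - 1) / (q - 1)`. -/
def bound (n r l q : ℕ) : ℚ := l * (n - 1) - (r - 1) * (((q : ℚ) ^ l - 1) / (q - 1))

section Lemmas

variable {K : Type} [Field K] {n r l : ℕ}

theorem rank_le_nz {a b : ℕ} (A : Matrix (Fin a) (Fin b) K) : A.rank ≤ nz A := by
  classical
  rw [Matrix.rank_eq_finrank_span_cols]
  set S : Set (Fin b) := {c : Fin b | ∃ k, A k c ≠ 0} with hS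
  have h1 : Submodule.span K (Set.range A.col) ≤ Submodule.span K (A.col '' S) := by
    rw [Submodule.span_le]
    rintro _ ⟨c, rfl⟩
    by_cases hc : c ∈ S
    · exact Submodule.subset_span ⟨c, hc, rfl⟩
    · have : A.col c = 0 := by
        ext k
        by_contra hk
        exact hc ⟨k, hk⟩
      rw [this]; exact Submodule.zero_mem _
  have hfin : (A.col '' S).Finite := (Set.toFinite S).image _
  calc Module.finrank K (Submodule.span K (Set.range A.col))
      ≤ Module.finrank K (Submodule.span K (A.col '' S)) := Submodule.finrank_mono h1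
    _ ≤ (A.col '' S).ncard := by
        have : Fintype (A.col '' S) := hfin.fintype
        rw [← Nat.card_coe_set_eq, Nat.card_eq_fintype_card, ← Set.toFinset_card]
        exact finrank_span_le_card _
    _ ≤ S.ncard := Set.ncard_image_le (Set.toFinite S)

theorem BW_le_IO (H : Blocks K n r l) (i : Fin n) (M : Matrix (Fin l) (Fin (r * l)) K) :
    BW H i M ≤ IO H i M :=
  Finset.sum_le_sum (fun _ _ => rank_le_nz _)

variable [Fintype K]

/-- A nonzero combination of the rows of a repair matrix vanishes on at most `r - 1` nodes. -/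
theorem card_vanish {H : Blocks K n r l} (hH : IsMDS H) {i : Fin n}
    {M : Matrix (Fin l) (Fin (r * l)) K} (hM : IsRepair H i M) {v : Fin l → K} (hv : v ≠ 0)
    (hr : 0 < r) :
    Set.ncard {j : Fin n | v ᵥ* (M * H j) = 0} ≤ r - 1 := by
  classical
  by_contra hcon
  push Not at hcon
  have hcard : r ≤ Set.ncard {j : Fin n | v ᵥ* (M * H j) = 0} := by omega
  obtain ⟨I, hI⟩ : ∃ I : Fin r ↪ Fin n, ∀ s, v ᵥ* (M * H (I s)) = 0 := by
    have h1 : Fintype.card (Fin r) ≤ Fintype.card {j : Fin n | v ᵥ* (M * H j) = 0} := by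
      rw [Fintype.card_fin, ← Nat.card_eq_fintype_card, Nat.card_coe_set_eq]
      exact hcard
    obtain ⟨e⟩ := Function.Embedding.nonempty_of_card_le h1
    exact ⟨e.trans (Function.Embedding.subtype _), fun s => (e s).2⟩
  have hu : v ᵥ* M = 0 := by
    have key : ∀ x : Fin (r * l) → K, (v ᵥ* M) ⬝ᵥ x = 0 := by
      intro x
      obtain ⟨C, rfl⟩ := (hH I).2 x
      rw [dotProduct_sum]
      apply Finset.sum_eq_zero
      intro s _
      rw [dotProduct_mulVec, vecMul_vecMul, hI s, zero_dotProduct]
    exact dotProduct_eq_zero _ key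
  have h2 : v ᵥ* (M * H i) = 0 := by rw [← vecMul_vecMul, hu, zero_vecMul]
  obtain ⟨N, hN⟩ := hM.exists_right_inv
  apply hv
  have : v ᵥ* (M * H i) ᵥ* N = v := by rw [vecMul_vecMul, hN, vecMul_one]
  rw [← this, h2, zero_vecMul]

theorem card_leftKer (A : Matrix (Fin l) (Fin l) K) :
    Set.ncard {v : Fin l → K | v ᵥ* A = 0} = Fintype.card K ^ (l - A.rank) := by
  classical
  have h1 : {v : Fin l → K | v ᵥ* A = 0} = (LinearMap.ker (Aᵀ.mulVecLin) : Set (Fin l → K)) := by
    ext v
    simp [LinearMap.mem_ker]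
  have h2 := LinearMap.finrank_range_add_finrank_ker (Aᵀ.mulVecLin)
  have h3 : Module.finrank K (LinearMap.range (Aᵀ.mulVecLin)) = A.rank := by
    rw [← rank_transpose]; rfl
  have h4 : Module.finrank K (LinearMap.ker (Aᵀ.mulVecLin)) = l - A.rank := by
    rw [h3, Module.finrank_fin_fun] at h2; omega
  rw [h1, ← Nat.card_coe_set_eq]
  have : Nat.card (LinearMap.ker (Aᵀ.mulVecLin)) = Nat.card K ^ Module.finrank K
    (LinearMap.ker (Aᵀ.mulVecLin)) := Module.natCard_eq_pow_finrank
  rw [h4, Nat.card_eq_fintype_card (α := K)] at this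
  exact this

theorem lower_bound {H : Blocks K n r l} (hH : IsMDS H) {i : Fin n}
    {M : Matrix (Fin l) (Fin (r * l)) K} (hM : IsRepair H i M) (hr : 0 < r) :
    l * (n - 1) ≤ BW H i M + (r - 1) * ∑ k ∈ Finset.range l, Fintype.card K ^ k := by
  classical
  set q := Fintype.card K with hq
  have hq1 : 1 < q := Fintype.one_lt_card
  -- double counting
  have hsum1 : ∑ v ∈ (Finset.univ.erase (0 : Fin l → K)),
      (Finset.univ.filter (fun j : Fin n => v ᵥ* (M * H j) = 0)).card ≤
      (q ^ l - 1) * (r - 1) := by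
    have hle : ∀ v ∈ (Finset.univ.erase (0 : Fin l → K)),
        (Finset.univ.filter (fun j : Fin n => v ᵥ* (M * H j) = 0)).card ≤ r - 1 := by
      intro v hv
      have := card_vanish hH hM (Finset.ne_of_mem_erase hv) hr
      rwa [Set.ncard_eq_toFinset_card', Set.toFinset_ofPred] at this
    refine (Finset.sum_le_card_nsmul _ _ _ hle).trans ?_
    rw [Finset.card_erase_of_mem (Finset.mem_univ _), Finset.card_univ, Fintype.card_fun,
      Fintype.card_fin, smul_eq_mul]
  have hsum2 : ∑ v ∈ (Finset.univ.erase (0 : Fin l → K)),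
      (Finset.univ.filter (fun j : Fin n => v ᵥ* (M * H j) = 0)).card =
      ∑ j : Fin n, (q ^ (l - (M * H j).rank) - 1) := by
    simp only [Finset.card_filter]
    rw [Finset.sum_comm]
    apply Finset.sum_congr rfl
    intro j _
    rw [← Finset.card_filter]
    have h1 := card_leftKer (M * H j)
    rw [Set.ncard_eq_toFinset_card', Set.toFinset_ofPred] at h1
    rw [← hq] at h1
    rw [← h1, Finset.filter_erase, Finset.card_erase_of_mem]
    simp
  have hbern : ∀ d : ℕ, d * (q - 1) ≤ q ^ d - 1 := by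
    intro d
    have := one_add_mul_le_pow (R := ℤ) (a := (q : ℤ) - 1) (by omega) d
    have h2 : (1 : ℤ) + ((q : ℤ) - 1) = q := by ring
    rw [h2] at this
    have h3 : 1 ≤ q ^ d := Nat.one_le_pow _ _ (by omega)
    zify [h3, hq1.le]
    linarith
  have hrank : ∀ j, (M * H j).rank ≤ l := by
    intro j
    have := Matrix.rank_le_card_height (M * H j)
    simpa using this
  have hmain : (q - 1) * ∑ j ∈ Finset.univ.erase i, (l - (M * H j).rank) ≤
      (q ^ l - 1) * (r - 1) := by
    calc (q - 1) * ∑ j ∈ Finset.univ.erase i, (l - (M * H j).rank)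
        = ∑ j ∈ Finset.univ.erase i, (l - (M * H j).rank) * (q - 1) := by
          rw [Finset.mul_sum]; exact Finset.sum_congr rfl (fun j _ => mul_comm _ _)
      _ ≤ ∑ j ∈ Finset.univ.erase i, (q ^ (l - (M * H j).rank) - 1) :=
          Finset.sum_le_sum (fun j _ => hbern _)
      _ ≤ ∑ j : Fin n, (q ^ (l - (M * H j).rank) - 1) :=
          Finset.sum_le_sum_of_subset (Finset.erase_subset _ _)
      _ ≤ (q ^ l - 1) * (r - 1) := by rw [← hsum2]; exact hsum1
  have hgeom : (q - 1) * ∑ k ∈ Finset.range l, q ^ k = q ^ l - 1 := by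
    have := Nat.geomSum_eq (by omega : 2 ≤ q) l
    rw [this]
    exact Nat.mul_div_cancel' (Nat.sub_one_dvd_pow_sub_one q l)
  rw [← hgeom, mul_assoc] at hmain
  have hmain2 := Nat.le_of_mul_le_mul_left hmain (by omega)
  have hdecomp : ∑ j ∈ Finset.univ.erase i, (l - (M * H j).rank) + BW H i M = l * (n - 1) := by
    unfold BW
    rw [← Finset.sum_add_distrib]
    have : ∀ j ∈ Finset.univ.erase i, (l - (M * H j).rank) + (M * H j).rank = l := by
      intro j _; have := hrank j; omega
    rw [Finset.sum_congr rfl this, Finset.sum_const, Finset.card_erase_of_mem (Finset.mem_univ _),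
      Finset.card_univ, Fintype.card_fin, smul_eq_mul, mul_comm]
  rw [mul_comm (r - 1)]
  omega

end Lemmas

end Q220.MDSArray
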