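import Pool.Agent.Q220.MDSArray.Defs

/-!
# The Lunelli-Sce hyperoval and an MDS array code over the field with four elements
-/

namespace Q220.MDSArray

open Matrix

/-- The field with four elements, `F_2[w]` with `w^2 = 1 + w`. -/
abbrev F4 : Type := QuadraticAlgebra (ZMod 2) 1 1

instance factF4 : Fact (∀ r : ZMod 2, r ^ 2 ≠ 1 + 1 * r) := ⟨by decide⟩

instance fintypeF4 : Fintype F4 := Fintype.ofEquiv _ (QuadraticAlgebra.equivProd 1 1).symm

/-- the element `w` -/
def om : F4 := ⟨0, 1⟩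

/-- The field with sixteen elements, `F_4[y]` with `y^2 = w + y`. -/
abbrev F16 : Type := QuadraticAlgebra F4 om 1

instance factF16 : Fact (∀ r : F4, r ^ 2 ≠ om + 1 * r) := ⟨by decide⟩

/-- bit `k` of `n` in `F_2` -/
def bit2 (n k : ℕ) : ZMod 2 := if n.testBit k then 1 else 0

/-- the element of `F_16` with number `n` -/
def el (n : ℕ) : F16 := ⟨⟨bit2 n 0, bit2 n 1⟩, ⟨bit2 n 2, bit2 n 3⟩⟩

/-- numbers of the coordinates of the 18 points of the Lunelli-Sce hyperoval -/
def ptNum : Fin 18 → Fin 3 → ℕ :=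
  ![![1, 0, 0], ![1, 1, 1], ![1, 4, 7], ![1, 5, 6], ![1, 6, 2], ![1, 7, 3], ![1, 2, 4], ![1, 3, 5],
    ![1, 14, 11], ![1, 15, 10], ![1, 10, 8], ![1, 11, 9], ![1, 8, 15], ![1, 9, 14], ![1, 12, 13],
    ![1, 13, 12], ![0, 0, 1], ![0, 1, 0]]

/-- the points -/
def pt (j : Fin 18) (t : Fin 3) : F16 := el (ptNum j t)

/-- determinant of three points -/
def det3 (a b c : Fin 18) : F16 :=
  pt a 0 * pt b 1 * pt c 2 - pt a 0 * pt b 2 * pt c 1
    - pt a 1 * pt b 0 * pt c 2 + pt a 1 * pt b 2 * pt c 0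
    + pt a 2 * pt b 0 * pt c 1 - pt a 2 * pt b 1 * pt c 0

theorem det3_ne : ∀ a b c : Fin 18, a < b → b < c → det3 a b c ≠ 0 := by
  decide +kernel

/-- numbers of the bases of `F_16` used at the 18 nodes -/
def bsNum : Fin 18 → Fin 2 → ℕ :=
  ![![1, 4], ![1, 4], ![1, 4], ![1, 4], ![1, 4], ![1, 4], ![1, 4], ![1, 4], ![1, 4], ![1, 4],
    ![1, 4], ![1, 4], ![1, 4], ![1, 5], ![1, 7], ![1, 4], ![1, 4], ![1, 4]]

/-- the bases -/
def bs (j : Fin 18) (s : Fin 2) : F16 := el (bsNum j s)

/-- the six coordinates over `F_4` of a vector of `F_16^3` -/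
def toVec (x : Fin 3 → F16) : Fin (3 * 2) → F4 := fun k =>
  if (k : ℕ) % 2 = 0 then (x ⟨k / 2, by omega⟩).re else (x ⟨k / 2, by omega⟩).im

/-- the blocks of the parity check matrix: the columns of block `j` are the coordinates of the
multiples of the point `j` by the two elements of the basis -/
def blk : Blocks F4 18 3 2 := fun j k s => toVec (fun t => bs j s * pt j t) k

/-- numbers of the coefficients of the functionals used for repair -/
def rpNum : Fin 3 → Fin 2 → Fin 3 → ℕ :=
  ![![![3, 5, 4], ![7, 8, 15]], ![![1, 2, 2], ![1, 3, 3]], ![![14, 3, 3], ![11, 2, 2]]]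

/-- the three repair matrices -/
def repM (o : Fin 3) : Matrix (Fin 2) (Fin (3 * 2)) F4 := fun a k =>
  (el (rpNum o a ⟨k / 2, by omega⟩) * (if (k : ℕ) % 2 = 0 then 1 else el 4)).im

/-- which repair matrix is used for which node -/
def opt : Fin 18 → Fin 3 := ![0, 2, 0, 2, 0, 1, 1, 0, 1, 0, 0, 2, 1, 1, 2, 2, 0, 0]

theorem rep_det : ∀ i : Fin 18, (repM (opt i) * blk i) 0 0 * (repM (opt i) * blk i) 1 1 -
    (repM (opt i) * blk i) 0 1 * (repM (opt i) * blk i) 1 0 ≠ 0 := by
  decide +kernel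

theorem rep_nz : ∀ i : Fin 18, ∑ j ∈ Finset.univ.erase i,
    (Finset.univ.filter (fun c : Fin 2 => ∃ k, (repM (opt i) * blk j) k c ≠ 0)).card = 24 := by
  decide +kernel

theorem basis_indep : ∀ j : Fin 18, ∀ a b : F4, a • bs j 0 + b • bs j 1 = 0 → a = 0 ∧ b = 0 := by
  decide +kernel

theorem isRepair_rep (i : Fin 18) : IsRepair blk i (repM (opt i)) := by
  unfold IsRepair
  rw [Matrix.isUnit_iff_isUnit_det, Matrix.det_fin_two, isUnit_iff_ne_zero]
  exact rep_det i

theorem IO_rep (i : Fin 18) : IO blk i (repM (opt i)) = 24 := by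
  rw [← rep_nz i]
  unfold IO
  apply Finset.sum_congr rfl
  intro j _
  unfold nz
  rw [Set.ncard_eq_toFinset_card', Set.toFinset_ofPred]

theorem det3_ne' (a b c : Fin 18) (hab : a ≠ b) (hac : a ≠ c) (hbc : b ≠ c) :
    det3 a b c ≠ 0 := by
  have s1 : ∀ a b c, det3 b a c = - det3 a b c := by intro a b c; unfold det3; ring
  have s2 : ∀ a b c, det3 a c b = - det3 a b c := by intro a b c; unfold det3; ring
  rcases lt_or_gt_of_ne hab with h1 | h1 <;> rcases lt_or_gt_of_ne hac with h2 | h2 <;>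
    rcases lt_or_gt_of_ne hbc with h3 | h3
  · exact det3_ne a b c h1 h3
  · rw [s2 a c b, neg_ne_zero]; exact det3_ne a c b h2 h3
  · exact absurd (h1.trans h3) (not_lt.mpr h2.le)
  · -- c < a < b
    rw [s2 a c b, s1 c a b, neg_neg]
    exact det3_ne c a b h2 h1
  · rw [s1 b a c, neg_ne_zero]; exact det3_ne b a c h1 h2
  · exact absurd (h3.trans h1) (not_lt.mpr h2.le)
  · -- b < c < a
    rw [s1 b a c, s2 b c a, neg_neg]
    exact det3_ne b c a h3 h2
  · -- c < b < a
    rw [s1 b a c, s2 b c a, s1 c b a, neg_neg, neg_ne_zero]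
    exact det3_ne c b a h3 h1

/-- the element of `F_16` with given coordinates in the basis at node `j` -/
def comb (j : Fin 18) (v : Fin 2 → F4) : F16 := v 0 • bs j 0 + v 1 • bs j 1

theorem toVec_add (x y : Fin 3 → F16) : toVec (x + y) = toVec x + toVec y := by
  funext k
  unfold toVec
  simp only [Pi.add_apply]
  split_ifs <;> simp

theorem toVec_smul (a : F4) (x : Fin 3 → F16) : toVec (a • x) = a • toVec x := by
  funext k
  unfold toVec
  simp only [Pi.smul_apply]
  split_ifs <;> simp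

theorem toVec_eq_zero {x : Fin 3 → F16} (h : toVec x = 0) : x = 0 := by
  funext t
  have h1 := congrFun h ⟨2 * t, by omega⟩
  have h2 := congrFun h ⟨2 * t + 1, by omega⟩
  unfold toVec at h1 h2
  simp only [Pi.zero_apply] at h1 h2
  rw [if_pos (by omega)] at h1
  rw [if_neg (by omega)] at h2
  have e1 : (⟨2 * t / 2, by omega⟩ : Fin 3) = t := by ext; simp
  have e2 : (⟨(2 * t + 1) / 2, by omega⟩ : Fin 3) = t := by
    ext
    change (2 * (t : ℕ) + 1) / 2 = t
    omega
  rw [e1] at h1
  rw [e2] at h2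
  exact QuadraticAlgebra.ext h1 h2

theorem blk_mulVec (j : Fin 18) (v : Fin 2 → F4) :
    blk j *ᵥ v = toVec (fun t => comb j v * pt j t) := by
  have h1 : (fun t => comb j v * pt j t) =
      v 0 • (fun t => bs j 0 * pt j t) + v 1 • (fun t => bs j 1 * pt j t) := by
    funext t
    simp only [comb, Pi.add_apply, Pi.smul_apply]
    rw [add_mul, smul_mul_assoc, smul_mul_assoc]
  rw [h1, toVec_add, toVec_smul, toVec_smul]
  funext k
  simp only [mulVec, dotProduct, Fin.sum_univ_two, Pi.add_apply, Pi.smul_apply, smul_eq_mul]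
  unfold blk
  ring

theorem isMDS_blk : IsMDS blk := by
  intro I
  let f : (Fin 3 → Fin 2 → F4) →ₗ[F4] (Fin (3 * 2) → F4) :=
    ∑ s, (Matrix.mulVecLin (blk (I s))) ∘ₗ (LinearMap.proj s)
  have hf : ∀ C, f C = ∑ s, blk (I s) *ᵥ C s := by
    intro C
    simp [f]
  have hinj : Function.Injective f := by
    rw [← LinearMap.ker_eq_bot, LinearMap.ker_eq_bot']
    intro C hC
    rw [hf] at hC
    have h1 : toVec (fun t => ∑ s, comb (I s) (C s) * pt (I s) t) = 0 := by
      rw [← hC, Fin.sum_univ_three]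
      simp only [blk_mulVec]
      rw [← toVec_add, ← toVec_add]
      congr 1
      funext t
      rw [Fin.sum_univ_three]
      rfl
    have h2 := toVec_eq_zero h1
    let A : Matrix (Fin 3) (Fin 3) F16 := Matrix.of fun s t => pt (I s) t
    have hA : A.det ≠ 0 := by
      rw [Matrix.det_fin_three]
      have := det3_ne' (I 0) (I 1) (I 2) (fun h => by simpa using I.injective h)
        (fun h => by simpa using I.injective h) (fun h => by simpa using I.injective h)
      exact this
    have h3 : (fun s => comb (I s) (C s)) ᵥ* A = 0 := by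
      funext t
      have := congrFun h2 t
      simpa [vecMul, dotProduct, A] using this
    have h4 : (fun s => comb (I s) (C s)) = 0 := Matrix.eq_zero_of_vecMul_eq_zero hA h3
    funext s
    have h5 := basis_indep (I s) (C s 0) (C s 1) (congrFun h4 s)
    funext t
    fin_cases t
    · exact h5.1
    · exact h5.2
  have hbij : Function.Bijective f := by
    refine ⟨hinj, ?_⟩
    refine (LinearMap.injective_iff_surjective_of_finrank_eq_finrank ?_).mp hinj
    simp [Module.finrank_pi_fintype]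
  have : (fun C : Fin 3 → Fin 2 → F4 => ∑ s, blk (I s) *ᵥ C s) = f := by
    funext C; exact (hf C).symm
  rw [this]
  exact hbij

theorem card_F4 : Fintype.card F4 = 4 := by
  rw [Fintype.card_congr (QuadraticAlgebra.equivProd (1 : ZMod 2) 1)]
  simp

theorem BW_ge {i : Fin 18} {M : Matrix (Fin 2) (Fin (3 * 2)) F4} (hM : IsRepair blk i M) :
    24 ≤ BW blk i M := by
  have := lower_bound isMDS_blk hM (by norm_num)
  rw [card_F4] at this
  simp [Finset.sum_range_succ] at this
  omega

theorem beta_blk (i : Fin 18) : beta blk i = 24 := by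
  apply le_antisymm
  · have h1 : beta blk i ≤ BW blk i (repM (opt i)) :=
      Nat.sInf_le ⟨_, isRepair_rep i, rfl⟩
    exact h1.trans ((BW_le_IO _ _ _).trans (IO_rep i).le)
  · refine le_csInf ⟨_, ⟨_, isRepair_rep i, rfl⟩⟩ ?_
    rintro _ ⟨M, hM, rfl⟩
    exact BW_ge hM

theorem gamma_blk (i : Fin 18) : gamma blk i = 24 := by
  apply le_antisymm
  · exact (Nat.sInf_le ⟨_, isRepair_rep i, rfl⟩ : gamma blk i ≤ IO blk i (repM (opt i))).trans
      (IO_rep i).le
  · refine le_csInf ⟨_, ⟨_, isRepair_rep i, rfl⟩⟩ ?_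
    rintro _ ⟨M, hM, rfl⟩
    exact (BW_ge hM).trans (BW_le_IO _ _ _)

end Q220.MDSArray
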